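import Mathlib
import Pool.Agent.Helper89.TL.Rect
import Pool.Agent.Helper61.TL.Tile

/-!
A dissection into rectangles is subdivided into squares by the Euclidean algorithm.
-/

set_option autoImplicit false

namespace Pool.Agent.Helper89.TL

variable {X : Type*} [LinearOrder X]

/-- A dissection of an `a × b` rectangle into squares, the sides of which carry automorphisms. -/
structure Loc (X : Type*) [LinearOrder X] (a b : ℕ) (lo up lt rt : X ≃o X) (κ : Type) where
  al : κ → ℕ
  yt : κ → ℕ
  sz : κ → ℕ
  pos : ∀ f, 0 < sz f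
  colb : ∀ f, al f + sz f ≤ a
  rowb : ∀ f, yt f + sz f ≤ b
  cover : ∀ i < a, ∀ j < b, ∃ f, In (al f) (sz f) i ∧ In (yt f) (sz f) j
  disj : ∀ f f' i j, In (al f) (sz f) i → In (yt f) (sz f) j → In (al f') (sz f') i →
    In (yt f') (sz f') j → f = f'
  lo' : κ → X ≃o X
  up' : κ → X ≃o X
  lt' : κ → X ≃o X
  rt' : κ → X ≃o X
  bot : ∀ f, yt f = 0 → lo' f = lo
  top : ∀ f, yt f + sz f = b → up' f = up
  left : ∀ f, al f = 0 → lt' f = lt
  right : ∀ f, al f + sz f = a → rt' f = rt
  vert : ∀ f f' i, In (al f) (sz f) i → In (al f') (sz f') i → yt f + sz f = yt f' →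
    up' f = lo' f'
  horz : ∀ f f' j, In (yt f) (sz f) j → In (yt f') (sz f') j → al f + sz f = al f' →
    rt' f = lt' f'
  cell : ∀ f x y, lo' f x ≤ lt' f y → up' f x ≤ rt' f y

namespace Loc

/-- One square. -/
def one {a : ℕ} (ha : 0 < a) {lo up lt rt : X ≃o X}
    (h : ∀ x y, lo x ≤ lt y → up x ≤ rt y) : Loc X a a lo up lt rt Unit where
  al _ := 0
  yt _ := 0
  sz _ := a
  pos _ := ha
  colb _ := by omega
  rowb _ := by omega
  cover i hi j hj := ⟨(), ⟨Nat.zero_le _, by omega⟩, ⟨Nat.zero_le _, by omega⟩⟩
  disj _ _ _ _ _ _ _ _ := rfl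
  lo' _ := lo
  up' _ := up
  lt' _ := lt
  rt' _ := rt
  bot _ _ := rfl
  top _ _ := rfl
  left _ _ := rfl
  right _ _ := rfl
  vert _ _ _ _ _ h := by omega
  horz _ _ _ _ _ h := by omega
  cell _ := h

/-- Two rectangles of the same width, one on the other. -/
def stack {a b b' : ℕ} (hb : 0 < b) (hb' : 0 < b') {lo m up lt rt : X ≃o X} {κ κ' : Type}
    (L : Loc X a b lo m lt rt κ)
    (L' : Loc X a b' m up lt rt κ') : Loc X a (b + b') lo up lt rt (κ ⊕ κ') where
  al := Sum.elim L.al L'.al
  yt := Sum.elim L.yt fun f => b + L'.yt f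
  sz := Sum.elim L.sz L'.sz
  pos := by
    rintro (f | f)
    · exact L.pos f
    · exact L'.pos f
  colb := by
    rintro (f | f)
    · exact L.colb f
    · exact L'.colb f
  rowb := by
    rintro (f | f)
    · have := L.rowb f
      simp only [Sum.elim_inl]
      omega
    · have := L'.rowb f
      simp only [Sum.elim_inr]
      omega
  cover i hi j hj := by
    rcases Nat.lt_or_ge j b with h | h
    · obtain ⟨f, h1, h2⟩ := L.cover i hi j h
      exact ⟨Sum.inl f, h1, h2⟩
    · obtain ⟨f, h1, h2⟩ := L'.cover i hi (j - b) (by omega)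
      refine ⟨Sum.inr f, h1, ?_⟩
      simp only [In, Sum.elim_inr] at h2 ⊢
      omega
  disj := by
    rintro (f | f) (f' | f') i j h1 h2 h3 h4
    · rw [L.disj f f' i j h1 h2 h3 h4]
    · have h5 := L.rowb f
      simp only [In, Sum.elim_inl, Sum.elim_inr] at h2 h4
      omega
    · have h5 := L.rowb f'
      simp only [In, Sum.elim_inl, Sum.elim_inr] at h2 h4
      omega
    · simp only [In, Sum.elim_inr] at h1 h2 h3 h4
      rw [L'.disj f f' i (j - b) h1 ⟨by omega, by omega⟩ h3 ⟨by omega, by omega⟩]
  lo' := Sum.elim L.lo' L'.lo'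
  up' := Sum.elim L.up' L'.up'
  lt' := Sum.elim L.lt' L'.lt'
  rt' := Sum.elim L.rt' L'.rt'
  bot := by
    rintro (f | f) h
    · exact L.bot f h
    · simp only [Sum.elim_inr] at h ⊢
      omega
  top := by
    rintro (f | f) h
    · have h5 := L.rowb f
      simp only [Sum.elim_inl] at h
      omega
    · simp only [Sum.elim_inr] at h ⊢
      exact L'.top f (by omega)
  left := by
    rintro (f | f) h
    · exact L.left f h
    · exact L'.left f h
  right := by
    rintro (f | f) h
    · exact L.right f h
    · exact L'.right f h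
  vert := by
    rintro (f | f) (f' | f') i h1 h2 h3
    · exact L.vert f f' i h1 h2 h3
    · have h5 := L.rowb f
      simp only [Sum.elim_inl, Sum.elim_inr] at h3 ⊢
      rw [L.top f (by omega), L'.bot f' (by omega)]
    · have h5 := L.rowb f'
      have h6 := L.pos f'
      have h7 := L'.pos f
      simp only [Sum.elim_inl, Sum.elim_inr] at h3
      omega
    · simp only [Sum.elim_inr] at h1 h2 h3 ⊢
      exact L'.vert f f' i h1 h2 (by omega)
  horz := by
    rintro (f | f) (f' | f') j h1 h2 h3
    · exact L.horz f f' j h1 h2 h3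
    · have h5 := L.rowb f
      simp only [In, Sum.elim_inl, Sum.elim_inr] at h1 h2
      omega
    · have h5 := L.rowb f'
      simp only [In, Sum.elim_inl, Sum.elim_inr] at h1 h2
      omega
    · simp only [In, Sum.elim_inr] at h1 h2 h3 ⊢
      exact L'.horz f f' (j - b) ⟨by omega, by omega⟩ ⟨by omega, by omega⟩ h3
  cell := by
    rintro (f | f)
    · exact L.cell f
    · exact L'.cell f

/-- Two rectangles of the same height side by side. -/
def beside {a a' b : ℕ} (ha : 0 < a) (ha' : 0 < a') {lo m up lt rt : X ≃o X} {κ κ' : Type}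
    (L : Loc X a b lo up lt m κ) (L' : Loc X a' b lo up m rt κ') :
    Loc X (a + a') b lo up lt rt (κ ⊕ κ') where
  al := Sum.elim L.al fun f => a + L'.al f
  yt := Sum.elim L.yt L'.yt
  sz := Sum.elim L.sz L'.sz
  pos := by
    rintro (f | f)
    · exact L.pos f
    · exact L'.pos f
  colb := by
    rintro (f | f)
    · have := L.colb f
      simp only [Sum.elim_inl]
      omega
    · have := L'.colb f
      simp only [Sum.elim_inr]
      omega
  rowb := by
    rintro (f | f)
    · exact L.rowb f
    · exact L'.rowb f
  cover i hi j hj := by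
    rcases Nat.lt_or_ge i a with h | h
    · obtain ⟨f, h1, h2⟩ := L.cover i h j hj
      exact ⟨Sum.inl f, h1, h2⟩
    · obtain ⟨f, h1, h2⟩ := L'.cover (i - a) (by omega) j hj
      refine ⟨Sum.inr f, ?_, h2⟩
      simp only [In, Sum.elim_inr] at h1 ⊢
      omega
  disj := by
    rintro (f | f) (f' | f') i j h1 h2 h3 h4
    · rw [L.disj f f' i j h1 h2 h3 h4]
    · have h5 := L.colb f
      simp only [In, Sum.elim_inl, Sum.elim_inr] at h1 h3
      omega
    · have h5 := L.colb f'
      simp only [In, Sum.elim_inl, Sum.elim_inr] at h1 h3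
      omega
    · simp only [In, Sum.elim_inr] at h1 h2 h3 h4
      rw [L'.disj f f' (i - a) j ⟨by omega, by omega⟩ h2 ⟨by omega, by omega⟩ h4]
  lo' := Sum.elim L.lo' L'.lo'
  up' := Sum.elim L.up' L'.up'
  lt' := Sum.elim L.lt' L'.lt'
  rt' := Sum.elim L.rt' L'.rt'
  bot := by
    rintro (f | f) h
    · exact L.bot f h
    · exact L'.bot f h
  top := by
    rintro (f | f) h
    · exact L.top f h
    · exact L'.top f h
  left := by
    rintro (f | f) h
    · exact L.left f h
    · simp only [Sum.elim_inr] at h
      omega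
  right := by
    rintro (f | f) h
    · have h5 := L.colb f
      simp only [Sum.elim_inl] at h
      omega
    · simp only [Sum.elim_inr] at h ⊢
      exact L'.right f (by omega)
  vert := by
    rintro (f | f) (f' | f') i h1 h2 h3
    · exact L.vert f f' i h1 h2 h3
    · have h5 := L.colb f
      simp only [In, Sum.elim_inl, Sum.elim_inr] at h1 h2
      omega
    · have h5 := L.colb f'
      simp only [In, Sum.elim_inl, Sum.elim_inr] at h1 h2
      omega
    · simp only [In, Sum.elim_inr] at h1 h2 h3 ⊢
      exact L'.vert f f' (i - a) ⟨by omega, by omega⟩ ⟨by omega, by omega⟩ h3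
  horz := by
    rintro (f | f) (f' | f') j h1 h2 h3
    · exact L.horz f f' j h1 h2 h3
    · have h5 := L.colb f
      simp only [Sum.elim_inl, Sum.elim_inr] at h3 ⊢
      rw [L.right f (by omega), L'.left f' (by omega)]
    · have h5 := L.colb f'
      have h6 := L.pos f'
      have h7 := L'.pos f
      simp only [Sum.elim_inl, Sum.elim_inr] at h3
      omega
    · simp only [Sum.elim_inr] at h1 h2 h3 ⊢
      exact L'.horz f f' j h1 h2 (by omega)
  cell := by
    rintro (f | f)
    · exact L.cell f
    · exact L'.cell f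

end Loc

/-- Roots of commuting automorphisms. -/
lemma le_of_pow {D N : X ≃o X} (hc : Commute D N) {n : ℕ} (hn : 0 < n)
    (h : ∀ z, (D ^ n) z ≤ (N ^ n) z) (z : X) : D z ≤ N z := by
  by_contra hlt
  push Not at hlt
  have hcz : ∀ (m : ℕ) (y : X), N ((D ^ m) y) = (D ^ m) (N y) := by
    intro m y
    have h1 := (hc.pow_left m).eq
    rw [← RelIso.mul_apply, ← RelIso.mul_apply, h1]
  have key : ∀ m : ℕ, (N ^ (m + 1)) z < (D ^ (m + 1)) z := by
    intro m
    induction m with
    | zero => simpa using hlt
    | succ m ih =>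
      rw [pow_succ' N, pow_succ D, RelIso.mul_apply, RelIso.mul_apply]
      calc N ((N ^ (m + 1)) z) < N ((D ^ (m + 1)) z) := N.strictMono ih
        _ = (D ^ (m + 1)) (N z) := hcz _ _
        _ < (D ^ (m + 1)) (D z) := (D ^ (m + 1)).strictMono hlt
  obtain ⟨m, rfl⟩ : ∃ m, n = m + 1 := ⟨n - 1, by omega⟩
  exact absurd (h z) (not_le.mpr (key m))

/-- The Euclidean algorithm for a rectangle. -/
theorem exists_loc : ∀ (n a b : ℕ), a + b = n → 0 < a → 0 < b → ∀ lo up lt rt : X ≃o X,
    Commute (up * lo⁻¹) (rt * lt⁻¹) →
    (∀ z, ((up * lo⁻¹) ^ a) z ≤ ((rt * lt⁻¹) ^ b) z) →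
    ∃ (κ : Type) (_ : Fintype κ) (L : Loc X a b lo up lt rt κ),
      ∑ f, L.sz f = a + b - Nat.gcd a b := by
  intro n
  induction n using Nat.strong_induction_on with
  | _ n ih =>
    intro a b hn ha hb lo up lt rt hc hs
    have cellN : ∀ {p q r s : X ≃o X}, (∀ z, (q * p⁻¹) z ≤ (s * r⁻¹) z) →
        ∀ x y, p x ≤ r y → q x ≤ s y := by
      intro p q r s h x y hxy
      have h1 := h (p x)
      rw [RelIso.mul_apply, RelIso.inv_apply_self, RelIso.mul_apply] at h1
      refine h1.trans (s.monotone ?_)
      rw [← r.le_iff_le, RelIso.apply_inv_self]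
      exact hxy
    rcases lt_trichotomy a b with h | h | h
    · -- a square at the bottom
      set D := up * lo⁻¹ with hD
      set N := rt * lt⁻¹ with hN
      obtain ⟨b', rfl⟩ : ∃ b', b = a + b' := ⟨b - a, by omega⟩
      have hb' : 0 < b' := by omega
      have e1 : N * lo * lo⁻¹ = N := mul_inv_cancel_right N lo
      have e2 : up * (N * lo)⁻¹ = D * N⁻¹ := by
        rw [mul_inv_rev, ← mul_assoc, hD]
      obtain ⟨κ, i1, L, hL⟩ := ih (a + b') (by omega) a b' rfl ha hb' (N * lo) up lt rt (by
          rw [e2, ← hN]
          exact (hc.mul_left (Commute.refl N).inv_left)) (by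
          intro z
          rw [e2, ← hN]
          have h1 : (D * N⁻¹) ^ a = D ^ a * (N ^ a)⁻¹ := by
            rw [(hc.inv_right).mul_pow, inv_pow]
          rw [h1, RelIso.mul_apply]
          refine (hs _).trans (le_of_eq ?_)
          rw [add_comm a b', pow_add, RelIso.mul_apply, RelIso.apply_inv_self])
      let Q : Loc X a a lo (N * lo) lt rt Unit := Loc.one ha (cellN fun z => by
        rw [e1])
      refine ⟨Unit ⊕ κ, inferInstance, Loc.stack ha hb' Q L, ?_⟩
      rw [Fintype.sum_sum_type]
      have h2 : ∑ f : Unit, (Loc.stack ha hb' Q L).sz (Sum.inl f) = a := by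
        simp only [Finset.univ_unique, Finset.sum_singleton]
        rfl
      have h3 : ∑ f : κ, (Loc.stack ha hb' Q L).sz (Sum.inr f) = ∑ f, L.sz f := rfl
      have h4 : Nat.gcd a (a + b') = Nat.gcd a b' := by simp
      have h5 : Nat.gcd a b' ≤ a := Nat.gcd_le_left _ ha
      rw [h2, h3, hL, h4]
      omega
    · -- one square
      subst h
      refine ⟨Unit, inferInstance, Loc.one ha (cellN (le_of_pow hc ha hs)), ?_⟩
      simp only [Finset.univ_unique, Finset.sum_singleton, Nat.gcd_self]
      change a = a + a - a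
      omega
    · -- a square on the left
      set D := up * lo⁻¹ with hD
      set N := rt * lt⁻¹ with hN
      obtain ⟨a', rfl⟩ : ∃ a', a = b + a' := ⟨a - b, by omega⟩
      have ha' : 0 < a' := by omega
      have e1 : D * lt * lt⁻¹ = D := mul_inv_cancel_right D lt
      have e2 : rt * (D * lt)⁻¹ = N * D⁻¹ := by
        rw [mul_inv_rev, ← mul_assoc, hN]
      obtain ⟨κ, i1, L, hL⟩ := ih (a' + b) (by omega) a' b rfl ha' hb lo up (D * lt) rt (by
          rw [e2, ← hD]
          exact (hc.mul_right (Commute.refl D).inv_right)) (by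
          intro z
          rw [e2, ← hD]
          have h1 : (N * D⁻¹) ^ b = N ^ b * (D ^ b)⁻¹ := by
            rw [(hc.symm.inv_right).mul_pow, inv_pow]
          rw [h1, RelIso.mul_apply]
          refine le_trans (le_of_eq ?_) (hs _)
          rw [add_comm b a', pow_add, RelIso.mul_apply, RelIso.apply_inv_self])
      let Q : Loc X b b lo up lt (D * lt) Unit := Loc.one hb (cellN fun z => by
        rw [e1])
      refine ⟨Unit ⊕ κ, inferInstance, Loc.beside hb ha' Q L, ?_⟩
      rw [Fintype.sum_sum_type]
      have h2 : ∑ f : Unit, (Loc.beside hb ha' Q L).sz (Sum.inl f) = b := by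
        simp only [Finset.univ_unique, Finset.sum_singleton]
        rfl
      have h3 : ∑ f : κ, (Loc.beside hb ha' Q L).sz (Sum.inr f) = ∑ f, L.sz f := rfl
      have h4 : Nat.gcd (b + a') b = Nat.gcd a' b := by simp
      have h5 : Nat.gcd a' b ≤ b := Nat.gcd_le_right _ hb
      rw [h2, h3, hL, h4]
      omega

/-- **Rectangles to squares.** The order is reversed because of the convention in `Tiling`. -/
theorem RTiling.squares {X : Type*} [LinearOrder X] {h k : ℕ} {τ M : X ≃o X} {ι : Type}
    [Fintype ι] (T : RTiling X h k τ M ι) :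
    ∃ (κ : Type) (_ : Fintype κ)
      (U : Pool.Agent.Helper61.TL.Tiling Xᵒᵈ h k τ.dual M.dual κ),
      ∑ e, U.sz e = ∑ e, (T.wd e + T.ht e - Nat.gcd (T.wd e) (T.ht e)) ∧
      (∀ e, T.al e = 0 → ∀ j, In (T.yt e) (T.ht e) j →
        ∃ f, U.al f = 0 ∧ In (U.yt f) (U.sz f) j ∧ U.lt f = (T.lt e).dual) ∧
      (∀ e, T.al e + T.wd e = k → ∀ j, In (T.yt e) (T.ht e) j →
        ∃ f, U.al f + U.sz f = k ∧ In (U.yt f) (U.sz f) j ∧ U.rt f = (T.rt e).dual) ∧
      (∀ e e' j, In (T.yt e) (T.ht e) j → In (T.yt e') (T.ht e') j →
        T.al e + T.wd e = T.al e' →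
        ∃ f f', In (U.yt f) (U.sz f) j ∧ In (U.yt f') (U.sz f') j ∧
          U.al f + U.sz f = U.al f' ∧ U.rt f = (T.rt e).dual ∧ U.lt f' = (T.lt e').dual) := by
  have key : ∀ e, ∃ (κ : Type) (_ : Fintype κ)
      (L : Loc X (T.wd e) (T.ht e) (T.lo e) (T.up e) (T.lt e) (T.rt e) κ),
      ∑ f, L.sz f = T.wd e + T.ht e - Nat.gcd (T.wd e) (T.ht e) := fun e =>
    exists_loc _ _ _ rfl (T.wd_pos e) (T.ht_pos e) _ _ _ _ (T.comm e) (T.slope e)
  choose K iK L hL using key
  -- a common column and a common row
  have same : ∀ {e e' : ι} {i j : ℕ}, T.al e ≤ i → i < T.al e + T.wd e → T.yt e ≤ j →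
      j < T.yt e + T.ht e → T.al e' ≤ i → i < T.al e' + T.wd e' → T.yt e' ≤ j →
      j < T.yt e' + T.ht e' → e = e' := fun h1 h2 h3 h4 h5 h6 h7 h8 =>
    T.disj _ _ _ _ ⟨h1, h2⟩ ⟨h3, h4⟩ ⟨h5, h6⟩ ⟨h7, h8⟩
  let U : Pool.Agent.Helper61.TL.Tiling Xᵒᵈ h k τ.dual M.dual (Σ e, K e) :=
    { al := fun p => T.al p.1 + (L p.1).al p.2
      yt := fun p => T.yt p.1 + (L p.1).yt p.2
      sz := fun p => (L p.1).sz p.2
      pos := fun p => (L p.1).pos p.2
      colb := fun p => by
        have h1 := (L p.1).colb p.2
        have h2 := T.colb p.1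
        omega
      rowb := fun p => by
        have h1 := (L p.1).rowb p.2
        have h2 := T.rowb p.1
        omega
      cover := fun i hi j hj => by
        obtain ⟨e, h1, h2⟩ := T.cover i hi j hj
        obtain ⟨f, h3, h4⟩ := (L e).cover (i - T.al e) (by
          have := h1.1
          have := h1.2
          omega) (j - T.yt e) (by
          have := h2.1
          have := h2.2
          omega)
        refine ⟨⟨e, f⟩, ?_⟩
        simp only [In] at h1 h2 h3 h4
        simp only [Pool.Agent.Helper61.TL.InSq]
        omega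
      disj := by
        rintro ⟨e, f⟩ ⟨e', f'⟩ i j h1 h2
        simp only [Pool.Agent.Helper61.TL.InSq] at h1 h2
        have a1 := (L e).colb f
        have a2 := (L e).rowb f
        have a3 := (L e').colb f'
        have a4 := (L e').rowb f'
        obtain rfl : e = e' := same (i := i) (j := j) (by omega) (by omega) (by omega) (by omega)
          (by omega) (by omega) (by omega) (by omega)
        rw [(L e).disj f f' (i - T.al e) (j - T.yt e) ⟨by omega, by omega⟩ ⟨by omega, by omega⟩
          ⟨by omega, by omega⟩ ⟨by omega, by omega⟩]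
      lo := fun p => ((L p.1).lo' p.2).dual
      up := fun p => ((L p.1).up' p.2).dual
      lt := fun p => ((L p.1).lt' p.2).dual
      rt := fun p => ((L p.1).rt' p.2).dual
      bot := by
        rintro ⟨e, f⟩ h1 z
        have h2 : (L e).yt f = 0 := by
          simp only at h1
          omega
        have h3 : T.yt e = 0 := by
          simp only at h1
          omega
        have h4 : (L e).lo' f = 1 := ((L e).bot f h2).trans (T.bot e h3)
        simp only [h4]
        rfl
      top := by
        rintro ⟨e, f⟩ h1 z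
        have a1 := (L e).rowb f
        have a2 := T.rowb e
        simp only at h1
        have h4 : (L e).up' f = τ :=
          ((L e).top f (by omega)).trans (T.top e (by omega))
        simp only [h4]
      vert := by
        rintro ⟨e, f⟩ ⟨e', f'⟩ i h1 h2 h3 h4 h5 z
        simp only at h1 h2 h3 h4 h5
        have a1 := (L e).colb f
        have a2 := (L e).rowb f
        have a3 := (L e').colb f'
        have a4 := (L e').rowb f'
        have a5 := (L e).pos f
        have a6 := (L e').pos f'
        by_cases hee : e = e'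
        · subst hee
          have h6 := (L e).vert f f' (i - T.al e) ⟨by omega, by omega⟩ ⟨by omega, by omega⟩
            (by omega)
          simp only [h6]
        · have b1 : (L e').yt f' = 0 := by
            by_contra h6
            exact hee (same (i := i) (j := T.yt e' + (L e').yt f' - 1) (by omega) (by omega)
              (by omega) (by omega) (by omega) (by omega) (by omega) (by omega))
          have b2 : (L e).yt f + (L e).sz f = T.ht e := by
            by_contra h6
            exact hee (same (i := i) (j := T.yt e' + (L e').yt f') (by omega) (by omega)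
              (by omega) (by omega) (by omega) (by omega) (by omega) (by omega))
          have h6 : (L e).up' f = (L e').lo' f' := by
            rw [(L e).top f b2, (L e').bot f' b1]
            exact T.vert e e' i ⟨by omega, by omega⟩ ⟨by omega, by omega⟩ (by omega)
          simp only [h6]
      left := by
        rintro ⟨e, f⟩ h1 z
        simp only at h1
        have h4 : (L e).lt' f = T.lt e := (L e).left f (by omega)
        simp only [h4]
        exact T.left e (by omega) z.ofDual
      right := by
        rintro ⟨e, f⟩ h1 z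
        simp only at h1
        have a1 := (L e).colb f
        have a2 := T.colb e
        have h4 : (L e).rt' f = T.rt e := (L e).right f (by omega)
        simp only [h4]
        exact T.right e (by omega) z.ofDual
      horz := by
        rintro ⟨e, f⟩ ⟨e', f'⟩ j h1 h2 h3 h4 h5 z
        simp only at h1 h2 h3 h4 h5
        have a1 := (L e).colb f
        have a2 := (L e).rowb f
        have a3 := (L e').colb f'
        have a4 := (L e').rowb f'
        have a5 := (L e).pos f
        have a6 := (L e').pos f'
        by_cases hee : e = e'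
        · subst hee
          have h6 := (L e).horz f f' (j - T.yt e) ⟨by omega, by omega⟩ ⟨by omega, by omega⟩
            (by omega)
          simp only [h6]
          exact le_rfl
        · have b1 : (L e').al f' = 0 := by
            by_contra h6
            exact hee (same (i := T.al e' + (L e').al f' - 1) (j := j) (by omega) (by omega)
              (by omega) (by omega) (by omega) (by omega) (by omega) (by omega))
          have b2 : (L e).al f + (L e).sz f = T.wd e := by
            by_contra h6
            exact hee (same (i := T.al e' + (L e').al f') (j := j) (by omega) (by omega)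
              (by omega) (by omega) (by omega) (by omega) (by omega) (by omega))
          have h6 : (L e).rt' f = T.rt e := (L e).right f b2
          have h7 : (L e').lt' f' = T.lt e' := (L e').left f' b1
          simp only [h6, h7]
          exact T.horz e e' j ⟨by omega, by omega⟩ ⟨by omega, by omega⟩ (by omega) z.ofDual
      cell := by
        rintro ⟨e, f⟩ x y hxy
        exact (L e).cell f x.ofDual y.ofDual hxy }
  refine ⟨Σ e, K e, inferInstance, U, ?_, ?_, ?_, ?_⟩
  · rw [Fintype.sum_sigma]
    exact Finset.sum_congr rfl fun e _ => hL e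
  · intro e he j hj
    obtain ⟨f, h1, h2⟩ := (L e).cover 0 (T.wd_pos e) (j - T.yt e) (by
      have := hj.1
      have := hj.2
      omega)
    simp only [In] at h1 h2 hj
    refine ⟨⟨e, f⟩, ?_, ?_, ?_⟩
    · change T.al e + (L e).al f = 0
      omega
    · change T.yt e + (L e).yt f ≤ j ∧ j < T.yt e + (L e).yt f + (L e).sz f
      omega
    · change ((L e).lt' f).dual = _
      rw [(L e).left f (by omega)]
  · intro e he j hj
    have hp := T.wd_pos e
    obtain ⟨f, h1, h2⟩ := (L e).cover (T.wd e - 1) (by omega) (j - T.yt e) (by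
      have := hj.1
      have := hj.2
      omega)
    have a1 := (L e).colb f
    simp only [In] at h1 h2 hj
    refine ⟨⟨e, f⟩, ?_, ?_, ?_⟩
    · change T.al e + (L e).al f + (L e).sz f = k
      omega
    · change T.yt e + (L e).yt f ≤ j ∧ j < T.yt e + (L e).yt f + (L e).sz f
      omega
    · change ((L e).rt' f).dual = _
      rw [(L e).right f (by omega)]
  · intro e e' j hj hj' hee
    have hp := T.wd_pos e
    have hp' := T.wd_pos e'
    obtain ⟨f, h1, h2⟩ := (L e).cover (T.wd e - 1) (by omega) (j - T.yt e) (by
      have := hj.1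
      have := hj.2
      omega)
    obtain ⟨f', h3, h4⟩ := (L e').cover 0 hp' (j - T.yt e') (by
      have := hj'.1
      have := hj'.2
      omega)
    have a1 := (L e).colb f
    simp only [In] at h1 h2 h3 h4 hj hj'
    refine ⟨⟨e, f⟩, ⟨e', f'⟩, ?_, ?_, ?_, ?_, ?_⟩
    · change T.yt e + (L e).yt f ≤ j ∧ j < T.yt e + (L e).yt f + (L e).sz f
      omega
    · change T.yt e' + (L e').yt f' ≤ j ∧ j < T.yt e' + (L e').yt f' + (L e').sz f'
      omega
    · change T.al e + (L e).al f + (L e).sz f = T.al e' + (L e').al f'
      omega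
    · change ((L e).rt' f).dual = _
      rw [(L e).right f (by omega)]
    · change ((L e').lt' f').dual = _
      rw [(L e').left f' (by omega)]

end Pool.Agent.Helper89.TL
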